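import Pool.Agent.Lib_MP_8720f8_lc.Chain
import Pool.Agent.Lib_MP_8720f8_lc.Wreath
import Pool.Agent.Lib_MP_8720f8_lc.Model
import Pool.Agent.Lib_MP_8720f8_lc.Pos
import Pool.Agent.Lib_MP_8720f8_lc.Rules
import Pool.Agent.Lib_MP_8720f8_lc.Comp
import Pool.Agent.Lib_MP_8720f8_lc.MachEx

/-!
# Expressibility of group words on all finite groups is undecidable

`Wd ℕ` is the type of words over the letters `x_0, x_1, ...` and their formal inverses and
`InC G Bs A` says that the word `A` is expressible in the words of the list `Bs` on the group `G`:
it is the smallest set of words that contains the variables and the words of `Bs` and is closed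
under substitution and under replacing a word by one identically equal to it on `G`.

There is one fixed finite list `Bs` of words such that no algorithm decides, given a word `A`,
whether `A` is expressible in `Bs` on every finite group.

Sketch of the proof. Take a multi-stack machine with recursively inseparable sets `H_0`, `H_1` of
inputs for which it halts in the accepting state resp. in another state. The words of `Bs` work with
three variables `y`, `s`, `b`: from `s`, `b` one forms the payload words, one for each letter of the
machine and one for a letter `z`, each a commutator of two elements `s^{-p} b^n s^p` (with positions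
`p` from a Sidon set). `Bs` contains the words `y ↦ X⁻¹ y X` for the payload words `X`, the word
`X_z`, and the words `y R(X)` for the relators `R` of a finitely presented group `z^2 = 1`,
`[l, l'] = 1` for letters of different stacks, `E(U) = E(V)` for the rules of the machine, where
`E(c)` is the iterated commutator of `z` with the letters of the configuration `c`, and finally the
word `y [X_z, v^n]` which yields the commutation of the conjugates of `z`. The target word is
`y E(c_0(m)) E(c_f)⁻¹`.
For `m` in `H_0` the relation `E(c_0(m)) = E(c_f)` follows from the relators and from the commutation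
of the conjugates of `z`, and the target word is expressible on all finite groups. For `m` in `H_1`
only finitely many configurations are reachable (with a history stack), so there is a finite linear
model over the field with two elements, and inside a finite wreath product there is a set that is
closed under the words of `Bs` but not under the target word.
-/

namespace Pool.Agent.Results.MP_8720f8_lc.Undecidable

open Relation Pool.Agent.Kuz

/-- **Kuznetsov's problem (Kourovka Notebook 7.25), negative answer.** There is a finite list `Bs` of
group words such that it is undecidable, given a group word `A`, whether `A` is expressible in `Bs`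
on every finite group. -/
theorem result : ∃ Bs : List (Wd ℕ),
    ¬ ComputablePred fun A : Wd ℕ => ∀ (G : Type) [Group G] [Finite G], InC G Bs A := by
  obtain ⟨Q, κ, Γ, _, _, _, _, _, _, M, q0, acc, k0, a, b, hacc, hM⟩ := exists_mach
  obtain ⟨n, p, hn, hp0, hp⟩ := exists_pos (Option (Option κ × Sy Q Γ) × Bool)
  set ks : List (Option κ) := (Finset.univ : Finset (Option κ)).toList with hks
  have hnd : ks.Nodup := Finset.nodup_toList _
  have hmem : ∀ k, k ∈ ks := fun k => by simp [hks]
  set Rs := Rels ks (mrules M acc)
  set gs : List (Option (Option κ × Sy Q Γ)) := Finset.univ.toList with hgs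
  refine ⟨Bw gs none n p Rs, fun hP => hM ⟨fun m => ∀ (G : Type) [Group G] [Finite G],
    InC G (Bw gs none n p Rs)
      (Aw n p (TW ks (enc q0 (initStk k0 a b m) []) (enc acc (fun _ => []) []))), ?_, ?_, ?_⟩⟩
  · obtain ⟨f, hf, e⟩ := ComputablePred.computable_iff.1 hP
    refine ComputablePred.computable_iff.2
      ⟨_, hf.comp (computable_Aw n p hnd q0 acc k0 a b), ?_⟩
    funext m
    exact congrFun e _
  · intro m S h G _ _
    refine inC_of hn (fun γ => by simp [hgs]) (by simp [Rs, Rels]) ?_ G
    intro Q' _ x hz hc hR
    exact chain hnd (rules_acc k0 hacc h) Q' x hz hc hR
  · intro m q S hq hne h hall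
    obtain ⟨C, hC, hrs, h1, h2⟩ := rules_rej hacc hq hne h
    obtain ⟨X, _, g, M', hM1, hM2, hM3, hM4, hM5, hM6, hM7⟩ :=
      model hnd hmem C hC hrs h1 h2
    obtain ⟨G, _, _, hG⟩ := not_inC_of (gs := gs) hn hp0 hp X g M' hM1 hM2 hM3 hM4 hM5 hM6 hM7
    exact hG (hall G)

end Pool.Agent.Results.MP_8720f8_lc.Undecidable
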